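import Pool.Agent.R853.Obs.Stm

set_option autoImplicit false

/-!
# MP_0a8f24_an, piece OB-B
-/

open MeasureTheory FourierTransform SchwartzMap Complex Filter Topology
open scoped ENNReal InnerProductSpace ComplexConjugate ContDiff

namespace Pool.Agent.R853.Obs

theorem obb_cube_vol (d : ℕ) (x : E d) (L : ℝ) (hL : 0 < L) :
    volume {y : E d | ∀ i, x i ≤ y i ∧ y i ≤ x i + L} = ENNReal.ofReal (L ^ d) := by
  have h1 : {y : E d | ∀ i, x i ≤ y i ∧ y i ≤ x i + L} =
      (WithLp.ofLp : E d → (Fin d → ℝ)) ⁻¹' (Set.Icc (fun i => x i) (fun i => x i + L)) := by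
    ext y
    constructor
    · intro h
      exact ⟨fun i => (h i).1, fun i => (h i).2⟩
    · rintro ⟨h1, h2⟩ i
      exact ⟨h1 i, h2 i⟩
  rw [h1, (PiLp.volume_preserving_ofLp (Fin d)).measure_preimage measurableSet_Icc.nullMeasurableSet,
    Real.volume_Icc_pi]
  simp only [add_sub_cancel_left, Finset.prod_const, Finset.card_univ, Fintype.card_fin]
  rw [ENNReal.ofReal_pow hL.le]

theorem stB : StB := by
  intro d a ha0 ha1 hu L η hL hη h
  rw [Metric.uniformContinuous_iff] at hu
  obtain ⟨r, hr, hu'⟩ := hu (η / 4) (by positivity)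
  refine ⟨η / 4, r, Real.sqrt (d * L ^ 2) + 1, by positivity, hr, by positivity, fun x => ?_⟩
  obtain ⟨y, hy, hay⟩ : ∃ y : E d, (∀ i, x i ≤ y i ∧ y i ≤ x i + L) ∧ η / 2 ≤ a y := by
    by_contra hcon
    push Not at hcon
    have hvol := obb_cube_vol d x L hL
    have h1 := norm_setIntegral_le_of_norm_le_const (μ := volume)
      (s := {y : E d | ∀ i, x i ≤ y i ∧ y i ≤ x i + L}) (f := a) (C := η / 2)
      (by rw [hvol]; exact ENNReal.ofReal_lt_top)
      (by
        intro y hy
        rw [Real.norm_eq_abs, abs_of_nonneg (ha0 y)]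
        exact (hcon y hy).le)
    rw [Measure.real, hvol, ENNReal.toReal_ofReal (by positivity), Real.norm_eq_abs] at h1
    have h2 := h x
    have h3 := le_abs_self (∫ y in {y : E d | ∀ i, x i ≤ y i ∧ y i ≤ x i + L}, a y)
    have h4 : 0 < L ^ d := by positivity
    nlinarith [mul_pos hη h4]
  refine ⟨y, ?_, ?_⟩
  · rw [EuclideanSpace.norm_eq]
    have h1 : ∑ i, ‖(y - x) i‖ ^ 2 ≤ d * L ^ 2 := by
      calc ∑ i, ‖(y - x) i‖ ^ 2 ≤ ∑ _i : Fin d, L ^ 2 := by
            apply Finset.sum_le_sum
            intro i _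
            have h2 := hy i
            rw [Real.norm_eq_abs, sq_abs]
            have h3 : (y - x) i = y i - x i := rfl
            rw [h3]
            nlinarith [h2.1, h2.2]
        _ = d * L ^ 2 := by simp
    have := Real.sqrt_le_sqrt h1
    linarith
  · intro x' hx'
    have h1 := hu' (a := x') (b := y) (by rw [dist_eq_norm]; exact hx')
    rw [Real.dist_eq, abs_lt] at h1
    linarith [h1.1]

end Pool.Agent.R853.Obs
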